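import Mathlib

/-!
Project VC (helper31), packages K1 and K6 (the analysis, over Mathlib only). `exists_nbh` is due to
helper86 (`Pool.Agent.P8H86.VC.Mc`), copied in order to keep the imports small.
-/

set_option autoImplicit false
open MeasureTheory Filter Topology Complex
open scoped ContDiff ENNReal

namespace Pool.Agent.P8H57.VC

noncomputable section

/-- a closed neighbourhood of a compact set -/
lemma exists_nbh {Ω S : Set ℂ} (hΩ : IsOpen Ω) (hS : IsCompact S) (hSΩ : S ⊆ Ω) :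
    ∃ r0 : ℝ, 0 < r0 ∧ ∃ K : Set ℂ, IsCompact K ∧ K ⊆ Ω ∧
      ∀ r : ℝ, 0 ≤ r → r ≤ r0 → ∀ z ∈ S, ∀ c ∈ Metric.closedBall (0 : ℂ) 1, z + r * c ∈ K := by
  obtain ⟨r0, hr0, hK⟩ := hS.exists_cthickening_subset_open hΩ hSΩ
  refine ⟨r0, hr0, Metric.cthickening r0 S, hS.cthickening, hK, ?_⟩
  intro r hr hr1 z hz c hc
  refine Metric.mem_cthickening_of_dist_le (z + r * c) z r0 S hz ?_
  rw [dist_eq_norm, add_sub_cancel_left, norm_mul, norm_real, Real.norm_eq_abs, abs_of_nonneg hr]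
  have h1 : ‖c‖ ≤ 1 := by simpa using hc
  nlinarith [norm_nonneg c]

/-- Cauchy-Schwarz with a weight -/
lemma cs {α : Type*} [MeasurableSpace α] {μ : Measure α} {w g : α → ℝ} (hw : ∀ a, 0 ≤ w a)
    (i0 : Integrable w μ) (i1 : Integrable (fun a => w a * g a) μ)
    (i2 : Integrable (fun a => w a * g a ^ 2) μ) :
    (∫ a, w a * g a ∂μ) ^ 2 ≤ (∫ a, w a ∂μ) * ∫ a, w a * g a ^ 2 ∂μ := by
  have h : ∀ t : ℝ, 0 ≤ (∫ a, w a ∂μ) * (t * t) + (-(2 * ∫ a, w a * g a ∂μ)) * t +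
      ∫ a, w a * g a ^ 2 ∂μ := by
    intro t
    have h1 : (0 : ℝ) ≤ ∫ a, w a * (g a - t) ^ 2 ∂μ :=
      integral_nonneg fun a => mul_nonneg (hw a) (sq_nonneg _)
    have h2 : (fun a => w a * (g a - t) ^ 2) =
        fun a => w a * g a ^ 2 - (2 * t) * (w a * g a) + (t * t) * w a := by
      funext a; ring
    have i3 : Integrable (fun a => (2 * t) * (w a * g a)) μ := i1.const_mul _
    have i4 : Integrable (fun a => (t * t) * w a) μ := i0.const_mul _
    have i5 : Integrable (fun a => w a * g a ^ 2 - (2 * t) * (w a * g a)) μ := i2.sub i3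
    rw [h2, integral_add i5 i4, integral_sub i2 i3, integral_const_mul, integral_const_mul] at h1
    linarith
  have h3 := discrim_le_zero h
  unfold discrim at h3
  nlinarith

/-- the integral of a translate -/
lemma translate {φ G : ℂ → ℝ} {K : Set ℂ} {M r1 : ℝ} (hφ : Continuous φ)
    (hφM : ∀ z, φ z ≤ M) (hK : IsCompact K) (hm : ∀ r : ℝ, 0 ≤ r → r ≤ r1 → ∀ z ∈ tsupport φ,
      ∀ c ∈ Metric.closedBall (0 : ℂ) 1, z + r * c ∈ K) (hG : ContinuousOn G K)
    (hG0 : ∀ z, 0 ≤ G z) {r : ℝ} (hr : 0 ≤ r) (hr1 : r ≤ r1) {c : ℂ}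
    (hc : c ∈ Metric.closedBall (0 : ℂ) 1) :
    ∫ z in tsupport φ, φ z * G (z + r * c) ≤ M * ∫ z in K, G z := by
  have z0 : ∀ z, z ∉ tsupport φ → φ z = 0 := fun z hz => image_eq_zero_of_notMem_tsupport hz
  have e1 : ∫ z in tsupport φ, φ z * G (z + r * c) = ∫ z, φ z * G (z + r * c) :=
    setIntegral_eq_integral_of_forall_compl_eq_zero fun z hz => by rw [z0 z hz, zero_mul]
  have e2 : ∫ z, φ z * G (z + r * c) = ∫ w, φ (w - r * c) * G w := by
    rw [← integral_add_right_eq_self (fun w => φ (w - r * c) * G w) (r * c)]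
    congr 1
    funext z
    simp only [add_sub_cancel_right]
  have e3 : ∫ w, φ (w - r * c) * G w = ∫ w in K, φ (w - r * c) * G w := by
    symm
    refine setIntegral_eq_integral_of_forall_compl_eq_zero fun w hw => ?_
    by_cases h1 : w - r * c ∈ tsupport φ
    · exact absurd (by simpa using hm r hr hr1 _ h1 c hc) hw
    · rw [z0 _ h1, zero_mul]
  rw [e1, e2, e3, ← integral_const_mul]
  refine setIntegral_mono_on ?_ ?_ hK.measurableSet fun w _ => ?_
  · exact ((hφ.comp (by fun_prop)).continuousOn.mul hG).integrableOn_compact hK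
  · exact (continuousOn_const.mul hG).integrableOn_compact hK
  · exact mul_le_mul_of_nonneg_right (hφM _) (hG0 w)

/-- the bound of a continuous function with compact support -/
lemma exists_sup {φ : ℂ → ℝ} (hφ : Continuous φ) (hφc : HasCompactSupport φ) :
    ∃ M : ℝ, 0 ≤ M ∧ ∀ z, φ z ≤ M := by
  obtain ⟨C, hC⟩ := hφc.exists_bound_of_continuous hφ
  exact ⟨C, (norm_nonneg _).trans (hC 0), fun z => (le_abs_self _).trans (hC z)⟩

/-- integration over a compact set of parameters -/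
lemma swap {β : Type*} [TopologicalSpace β] [MeasurableSpace β] [BorelSpace β]
    [SecondCountableTopology β] [T2Space β] {ν : Measure β} [IsFiniteMeasureOnCompacts ν] [SFinite ν]
    {S : Set ℂ} {T T' : Set β} {H : ℂ → β → ℝ}
    (hS : IsCompact S) (hT : IsCompact T) (hT' : T' ⊆ T)
    (hH : ContinuousOn (fun p : ℂ × β => H p.1 p.2) (S ×ˢ T)) :
    (∫ z in S, (∫ c in T', H z c ∂ν) = ∫ c in T', (∫ z in S, H z c) ∂ν) ∧
      Integrable (fun z => ∫ c in T', H z c ∂ν) (volume.restrict S) ∧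
      Integrable (fun c => ∫ z in S, H z c) (ν.restrict T') := by
  have iF : IntegrableOn (fun p : ℂ × β => H p.1 p.2) (S ×ˢ T') (volume.prod ν) :=
    (hH.integrableOn_compact (hS.prod hT)).mono_set (Set.prod_mono subset_rfl hT')
  have iF' : Integrable (Function.uncurry H) ((volume.restrict S).prod (ν.restrict T')) := by
    rw [Measure.prod_restrict]
    exact iF
  exact ⟨integral_integral_swap iF', iF'.integral_prod_left, iF'.integral_prod_right⟩

/-- K1 -/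
theorem k1c {Ω : Set ℂ} {φ : ℂ → ℝ} (hΩ : IsOpen Ω) (hφ : Continuous φ)
    (hφc : HasCompactSupport φ) (hφΩ : tsupport φ ⊆ Ω) (hφ0 : ∀ z, 0 ≤ φ z) :
    ∃ (r0 M : ℝ) (K : Set ℂ), 0 < r0 ∧ 0 ≤ M ∧ IsCompact K ∧
    K ⊆ Ω ∧ tsupport φ ⊆ K ∧ (∀ z ∈ tsupport φ, ∀ c ∈ Metric.closedBall (0 : ℂ) 1, ∀ r : ℝ, 0 ≤ r →
    r ≤ r0 → z + r * c ∈ K) ∧
    ∀ f : ℂ → ℝ, ContinuousOn f Ω → ∀ κ : ℂ → ℝ, ContinuousOn κ (Metric.closedBall 0 1) →
    ∀ r : ℝ, 0 ≤ r → r ≤ r0 →
    ∫ z, φ z * (∫ c in Metric.ball (0 : ℂ) 1, κ c * f (z + r * c)) ^ 2 ≤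
      (∫ c in Metric.ball (0 : ℂ) 1, |κ c|) ^ 2 * (M * ∫ z in K, f z ^ 2) := by
  obtain ⟨r1, hr1, K, hK, hKΩ, hm⟩ := exists_nbh hΩ hφc hφΩ
  obtain ⟨M, hM0, hM⟩ := exists_sup hφ hφc
  have hSK : tsupport φ ⊆ K := fun z hz => by
    have := hm 0 le_rfl hr1.le z hz 0 (by simp)
    simpa using this
  refine ⟨r1, M, K, hr1, hM0, hK, hKΩ, hSK, fun z hz c hc r hr hrr => hm r hr hrr z hz c hc, ?_⟩
  intro f hf κ hκ r hr hrr
  have z0 : ∀ z, z ∉ tsupport φ → φ z = 0 := fun z hz => image_eq_zero_of_notMem_tsupport hz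
  have hcb := isCompact_closedBall (0 : ℂ) 1
  have hsub : Metric.ball (0 : ℂ) 1 ⊆ Metric.closedBall (0 : ℂ) 1 := Metric.ball_subset_closedBall
  have cκ : ContinuousOn (fun c => |κ c|) (Metric.closedBall (0 : ℂ) 1) := hκ.abs
  have iκ : IntegrableOn (fun c => |κ c|) (Metric.ball (0 : ℂ) 1) :=
    (cκ.integrableOn_compact hcb).mono_set hsub
  set A := ∫ c in Metric.ball (0 : ℂ) 1, |κ c| with hA
  have hA0 : 0 ≤ A := integral_nonneg fun _ => abs_nonneg _
  set J := ∫ z in K, f z ^ 2 with hJ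
  -- the pointwise inequality
  have pt : ∀ z ∈ tsupport φ, (∫ c in Metric.ball (0 : ℂ) 1, κ c * f (z + r * c)) ^ 2 ≤
      A * ∫ c in Metric.ball (0 : ℂ) 1, |κ c| * f (z + r * c) ^ 2 := by
    intro z hz
    have cf : ContinuousOn (fun c : ℂ => f (z + r * c)) (Metric.closedBall (0 : ℂ) 1) :=
      (hf.mono hKΩ).comp (by fun_prop) fun c hc => hm r hr hrr z hz c hc
    have j1 : IntegrableOn (fun c : ℂ => |κ c| * |f (z + r * c)|) (Metric.ball (0 : ℂ) 1) :=
      ((cκ.mul cf.abs).integrableOn_compact hcb).mono_set hsub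
    have j2 : IntegrableOn (fun c : ℂ => |κ c| * |f (z + r * c)| ^ 2) (Metric.ball (0 : ℂ) 1) :=
      ((cκ.mul (cf.abs.pow 2)).integrableOn_compact hcb).mono_set hsub
    have h1 := cs (μ := volume.restrict (Metric.ball (0 : ℂ) 1)) (w := fun c => |κ c|)
      (g := fun c => |f (z + r * c)|) (fun _ => abs_nonneg _) iκ j1 j2
    simp only [sq_abs] at h1
    refine le_trans ?_ h1
    rw [← sq_abs]
    refine pow_le_pow_left₀ (abs_nonneg _) ?_ 2
    refine (abs_integral_le_integral_abs).trans (le_of_eq ?_)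
    simp only [abs_mul]
  have cH : ContinuousOn (fun p : ℂ × ℂ => φ p.1 * (A * (|κ p.2| * f (p.1 + r * p.2) ^ 2)))
      (tsupport φ ×ˢ Metric.closedBall (0 : ℂ) 1) := by
    refine (hφ.comp continuous_fst).continuousOn.mul (continuousOn_const.mul ?_)
    refine (cκ.comp continuousOn_snd fun p hp => hp.2).mul (ContinuousOn.pow ?_ 2)
    exact (hf.mono hKΩ).comp (by fun_prop) fun p hp => hm r hr hrr p.1 hp.1 p.2 hp.2
  obtain ⟨s1, s2, s3⟩ := swap (ν := volume)
    (H := fun z c => φ z * (A * (|κ c| * f (z + r * c) ^ 2))) hφc.isCompact hcb hsub cH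
  have e0 : ∀ z, ∫ c in Metric.ball (0 : ℂ) 1, φ z * (A * (|κ c| * f (z + r * c) ^ 2)) =
      φ z * (A * ∫ c in Metric.ball (0 : ℂ) 1, |κ c| * f (z + r * c) ^ 2) := by
    intro z
    rw [integral_const_mul, integral_const_mul]
  have e5 : ∫ z, φ z * (∫ c in Metric.ball (0 : ℂ) 1, κ c * f (z + r * c)) ^ 2 =
      ∫ z in tsupport φ, φ z * (∫ c in Metric.ball (0 : ℂ) 1, κ c * f (z + r * c)) ^ 2 := by
    symm
    refine setIntegral_eq_integral_of_forall_compl_eq_zero fun w hw => ?_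
    rw [z0 _ hw, zero_mul]
  rw [e5]
  have step1 : ∫ z in tsupport φ, φ z * (∫ c in Metric.ball (0 : ℂ) 1, κ c * f (z + r * c)) ^ 2 ≤
      ∫ z in tsupport φ, ∫ c in Metric.ball (0 : ℂ) 1, φ z * (A * (|κ c| * f (z + r * c) ^ 2)) := by
    refine integral_mono_of_nonneg (ae_of_all _ fun z => mul_nonneg (hφ0 z) (sq_nonneg _)) s2 ?_
    filter_upwards [ae_restrict_mem (isClosed_tsupport φ).measurableSet] with z hz
    rw [e0 z]
    exact mul_le_mul_of_nonneg_left (pt z hz) (hφ0 z)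
  refine step1.trans ?_
  rw [s1]
  have step2 : ∫ c in Metric.ball (0 : ℂ) 1, ∫ z in tsupport φ,
      φ z * (A * (|κ c| * f (z + r * c) ^ 2)) ≤
      ∫ c in Metric.ball (0 : ℂ) 1, |κ c| * (A * (M * J)) := by
    refine setIntegral_mono_on s3 (iκ.mul_const _) measurableSet_ball fun c hc => ?_
    have e1 : ∫ z in tsupport φ, φ z * (A * (|κ c| * f (z + r * c) ^ 2)) =
        (A * |κ c|) * ∫ z in tsupport φ, φ z * f (z + r * c) ^ 2 := by
      rw [← integral_const_mul]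
      congr 1
      funext z
      ring
    rw [e1]
    have h2 := translate (G := fun w => f w ^ 2) hφ hM hK hm ((hf.mono hKΩ).pow 2)
      (fun _ => sq_nonneg _) hr hrr (hsub hc)
    have h3 := mul_le_mul_of_nonneg_left h2 (mul_nonneg hA0 (abs_nonneg (κ c)))
    refine h3.trans (le_of_eq ?_)
    ring
  refine step2.trans (le_of_eq ?_)
  rw [integral_mul_const]
  ring

/-- the increment of a smooth function -/
lemma incr {Ω K : Set ℂ} {F : ℂ → ℝ} (hΩ : IsOpen Ω) (hF : ContDiffOn ℝ ∞ F Ω) (hKΩ : K ⊆ Ω)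
    {z c : ℂ} {r : ℝ} (hc : c ∈ Metric.closedBall (0 : ℂ) 1)
    (hz : ∀ s ∈ Set.Icc (0 : ℝ) 1, z + ((s * r : ℝ) : ℂ) * c ∈ K) :
    (F (z + r * c) - F z) ^ 2 ≤ r ^ 2 * ∫ s in Set.Ioc (0 : ℝ) 1,
      (fderiv ℝ F (z + ((s * r : ℝ) : ℂ) * c) 1 ^ 2 + fderiv ℝ F (z + ((s * r : ℝ) : ℂ) * c) I ^ 2) := by
  have cD : ContinuousOn (fderiv ℝ F) Ω := hF.continuousOn_fderiv_of_isOpen hΩ (by simp)
  have cγ : Continuous (fun s : ℝ => z + ((s * r : ℝ) : ℂ) * c) := by fun_prop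
  have cv : ∀ v : ℂ, ContinuousOn (fun s : ℝ => fderiv ℝ F (z + ((s * r : ℝ) : ℂ) * c) v)
      (Set.Icc (0 : ℝ) 1) := fun v =>
    ((cD.mono hKΩ).comp cγ.continuousOn fun s hs => hz s hs).clm_apply continuousOn_const
  have hd : ∀ s ∈ Set.Icc (0 : ℝ) 1, HasDerivAt (fun s : ℝ => F (z + ((s * r : ℝ) : ℂ) * c))
      (r * fderiv ℝ F (z + ((s * r : ℝ) : ℂ) * c) c) s := by
    intro s hs
    have h1 : HasFDerivAt F (fderiv ℝ F (z + ((s * r : ℝ) : ℂ) * c)) (z + ((s * r : ℝ) : ℂ) * c) :=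
      ((hF.contDiffAt (hΩ.mem_nhds (hKΩ (hz s hs)))).differentiableAt (by simp)).hasFDerivAt
    have h2 : HasDerivAt (fun s : ℝ => z + ((s * r : ℝ) : ℂ) * c) ((r : ℂ) * c) s := by
      have h3 : HasDerivAt (fun s : ℝ => ((s * r : ℝ) : ℂ)) (r : ℂ) s := by
        have h4 : HasDerivAt (fun s : ℝ => s * r) r s := by
          simpa using (hasDerivAt_id s).mul_const r
        exact h4.ofReal_comp
      exact (h3.mul_const c).const_add z
    have h5 := h1.comp_hasDerivAt s h2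
    have h6 : fderiv ℝ F (z + ((s * r : ℝ) : ℂ) * c) ((r : ℂ) * c) =
        r * fderiv ℝ F (z + ((s * r : ℝ) : ℂ) * c) c := by
      have : ((r : ℂ) * c) = r • c := by rw [Complex.real_smul]
      rw [this, map_smul, smul_eq_mul]
    rw [h6] at h5
    exact h5
  have hi : IntervalIntegrable (fun s : ℝ => r * fderiv ℝ F (z + ((s * r : ℝ) : ℂ) * c) c)
      volume 0 1 := by
    rw [intervalIntegrable_iff_integrableOn_Icc_of_le zero_le_one]
    exact (continuousOn_const.mul (cv c)).integrableOn_compact isCompact_Icc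
  have h7 := intervalIntegral.integral_eq_sub_of_hasDerivAt (a := 0) (b := 1)
    (by intro s hs; rw [Set.uIcc_of_le zero_le_one] at hs; exact hd s hs) hi
  rw [intervalIntegral.integral_of_le zero_le_one] at h7
  have h8 : F (z + r * c) - F z = ∫ s in Set.Ioc (0 : ℝ) 1,
      1 * (r * fderiv ℝ F (z + ((s * r : ℝ) : ℂ) * c) c) := by
    simp only [one_mul]
    rw [h7]
    simp
  have k1 : IntegrableOn (fun s : ℝ => (1 : ℝ)) (Set.Ioc (0 : ℝ) 1) := by
    simp
  have k2 : IntegrableOn (fun s : ℝ => 1 * (r * fderiv ℝ F (z + ((s * r : ℝ) : ℂ) * c) c))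
      (Set.Ioc (0 : ℝ) 1) :=
    ((continuousOn_const.mul (continuousOn_const.mul (cv c))).integrableOn_compact
      isCompact_Icc).mono_set Set.Ioc_subset_Icc_self
  have k3 : IntegrableOn (fun s : ℝ => 1 * (r * fderiv ℝ F (z + ((s * r : ℝ) : ℂ) * c) c) ^ 2)
      (Set.Ioc (0 : ℝ) 1) :=
    ((continuousOn_const.mul ((continuousOn_const.mul (cv c)).pow 2)).integrableOn_compact
      isCompact_Icc).mono_set Set.Ioc_subset_Icc_self
  have k4 : IntegrableOn (fun s : ℝ => r ^ 2 * (fderiv ℝ F (z + ((s * r : ℝ) : ℂ) * c) 1 ^ 2 +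
      fderiv ℝ F (z + ((s * r : ℝ) : ℂ) * c) I ^ 2)) (Set.Ioc (0 : ℝ) 1) :=
    ((continuousOn_const.mul (((cv 1).pow 2).add ((cv I).pow 2))).integrableOn_compact
      isCompact_Icc).mono_set Set.Ioc_subset_Icc_self
  have h9 := cs (μ := volume.restrict (Set.Ioc (0 : ℝ) 1)) (w := fun _ => (1 : ℝ))
    (g := fun s => r * fderiv ℝ F (z + ((s * r : ℝ) : ℂ) * c) c) (fun _ => zero_le_one) k1 k2 k3
  rw [← h8] at h9
  refine h9.trans ?_
  have h10 : ∫ _s in Set.Ioc (0 : ℝ) 1, (1 : ℝ) = 1 := by simp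
  rw [h10, one_mul, ← integral_const_mul]
  refine setIntegral_mono_on k3 k4 measurableSet_Ioc fun s _ => ?_
  have h11 : fderiv ℝ F (z + ((s * r : ℝ) : ℂ) * c) c =
      c.re * fderiv ℝ F (z + ((s * r : ℝ) : ℂ) * c) 1 +
        c.im * fderiv ℝ F (z + ((s * r : ℝ) : ℂ) * c) I := by
    have h12 : c = c.re • (1 : ℂ) + c.im • I := by
      rw [Complex.real_smul, Complex.real_smul, mul_one]
      exact (Complex.re_add_im c).symm
    have h12' := congrArg (fderiv ℝ F (z + ((s * r : ℝ) : ℂ) * c)) h12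
    rw [map_add, map_smul, map_smul, smul_eq_mul, smul_eq_mul] at h12'
    exact h12'
  have h13 : c.re ^ 2 + c.im ^ 2 ≤ 1 := by
    have h14 : ‖c‖ ≤ 1 := by simpa using hc
    have h15 : ‖c‖ ^ 2 = c.re ^ 2 + c.im ^ 2 := by
      rw [Complex.sq_norm, Complex.normSq_apply]; ring
    rw [← h15]
    exact pow_le_one₀ (norm_nonneg _) h14
  show 1 * (r * fderiv ℝ F (z + ((s * r : ℝ) : ℂ) * c) c) ^ 2 ≤ _
  rw [h11]
  set a := fderiv ℝ F (z + ((s * r : ℝ) : ℂ) * c) 1
  set b := fderiv ℝ F (z + ((s * r : ℝ) : ℂ) * c) I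
  have h16 : (c.re * a + c.im * b) ^ 2 ≤ a ^ 2 + b ^ 2 := by
    nlinarith [sq_nonneg (c.re * b - c.im * a), sq_nonneg a, sq_nonneg b]
  nlinarith [sq_nonneg r, mul_le_mul_of_nonneg_left h16 (sq_nonneg r)]

/-- K6 -/
theorem k6c {Ω : Set ℂ} {φ : ℂ → ℝ} (hΩ : IsOpen Ω) (hφ : Continuous φ)
    (hφc : HasCompactSupport φ) (hφΩ : tsupport φ ⊆ Ω) (hφ0 : ∀ z, 0 ≤ φ z) :
    ∃ (r0 M : ℝ) (K : Set ℂ), 0 < r0 ∧ 0 ≤ M ∧ IsCompact K ∧
    K ⊆ Ω ∧ ∀ F : ℂ → ℝ, ContDiffOn ℝ ∞ F Ω → ∀ r : ℝ, 0 ≤ r → r ≤ r0 →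
    ∫ z, φ z * ((1 / Real.pi) * (∫ c in Metric.ball (0 : ℂ) 1, F (z + r * c)) - F z) ^ 2 ≤
      M * (r ^ 2 * ∫ z in K, (fderiv ℝ F z 1 ^ 2 + fderiv ℝ F z I ^ 2)) := by
  obtain ⟨r1, hr1, K, hK, hKΩ, hm⟩ := exists_nbh hΩ hφc hφΩ
  obtain ⟨M, hM0, hM⟩ := exists_sup hφ hφc
  have hSK : tsupport φ ⊆ K := fun z hz => by
    have := hm 0 le_rfl hr1.le z hz 0 (by simp)
    simpa using this
  refine ⟨r1, M, K, hr1, hM0, hK, hKΩ, ?_⟩
  intro F hF r hr hrr
  have hpi := Real.pi_pos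
  have z0 : ∀ z, z ∉ tsupport φ → φ z = 0 := fun z hz => image_eq_zero_of_notMem_tsupport hz
  have hcb := isCompact_closedBall (0 : ℂ) 1
  have hsub : Metric.ball (0 : ℂ) 1 ⊆ Metric.closedBall (0 : ℂ) 1 := Metric.ball_subset_closedBall
  have cFΩ : ContinuousOn F Ω := hF.continuousOn
  have cD : ContinuousOn (fderiv ℝ F) Ω := hF.continuousOn_fderiv_of_isOpen hΩ (by simp)
  set G : ℂ → ℝ := fun w => fderiv ℝ F w 1 ^ 2 + fderiv ℝ F w I ^ 2 with hG
  have cG : ContinuousOn G K := (((cD.mono hKΩ).clm_apply continuousOn_const).pow 2).add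
    (((cD.mono hKΩ).clm_apply continuousOn_const).pow 2)
  have hG0 : ∀ w, 0 ≤ G w := fun w => add_nonneg (sq_nonneg _) (sq_nonneg _)
  set J := ∫ z in K, G z with hJ
  have hms : ∀ s ∈ Set.Icc (0 : ℝ) 1, ∀ z ∈ tsupport φ, ∀ c ∈ Metric.closedBall (0 : ℂ) 1,
      z + ((s * r : ℝ) : ℂ) * c ∈ K := fun s hs z hz c hc =>
    hm (s * r) (mul_nonneg hs.1 hr) ((mul_le_of_le_one_left hr hs.2).trans hrr) z hz c hc
  have vol : ∫ _c in Metric.ball (0 : ℂ) 1, (1 : ℝ) = Real.pi := by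
    rw [setIntegral_const, smul_eq_mul, mul_one, Measure.real, Complex.volume_ball]
    simp
  have i1b : IntegrableOn (fun _ : ℂ => (1 : ℝ)) (Metric.ball (0 : ℂ) 1) :=
    (continuousOn_const.integrableOn_compact hcb).mono_set hsub
  -- the pointwise inequality
  have pt : ∀ z ∈ tsupport φ,
      ((1 / Real.pi) * (∫ c in Metric.ball (0 : ℂ) 1, F (z + r * c)) - F z) ^ 2 ≤
        (1 / Real.pi) * ∫ c in Metric.ball (0 : ℂ) 1, (F (z + r * c) - F z) ^ 2 := by
    intro z hz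
    have cf : ContinuousOn (fun c : ℂ => F (z + r * c)) (Metric.closedBall (0 : ℂ) 1) :=
      (cFΩ.mono hKΩ).comp (by fun_prop) fun c hc => hm r hr hrr z hz c hc
    have j0 : IntegrableOn (fun c : ℂ => F (z + r * c)) (Metric.ball (0 : ℂ) 1) :=
      (cf.integrableOn_compact hcb).mono_set hsub
    have j1 : IntegrableOn (fun c : ℂ => 1 * (F (z + r * c) - F z)) (Metric.ball (0 : ℂ) 1) :=
      ((continuousOn_const.mul (cf.sub continuousOn_const)).integrableOn_compact hcb).mono_set hsub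
    have j2 : IntegrableOn (fun c : ℂ => 1 * (F (z + r * c) - F z) ^ 2) (Metric.ball (0 : ℂ) 1) :=
      ((continuousOn_const.mul ((cf.sub continuousOn_const).pow 2)).integrableOn_compact
        hcb).mono_set hsub
    have h1 := cs (μ := volume.restrict (Metric.ball (0 : ℂ) 1)) (w := fun _ => (1 : ℝ))
      (g := fun c => F (z + r * c) - F z) (fun _ => zero_le_one) i1b j1 j2
    simp only [one_mul] at h1
    rw [vol] at h1
    have h2 : ∫ c in Metric.ball (0 : ℂ) 1, (F (z + r * c) - F z) =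
        (∫ c in Metric.ball (0 : ℂ) 1, F (z + r * c)) - Real.pi * F z := by
      have j3 : IntegrableOn (fun _ : ℂ => F z) (Metric.ball (0 : ℂ) 1) :=
        (continuousOn_const.integrableOn_compact hcb).mono_set hsub
      have h3 : ∫ _c in Metric.ball (0 : ℂ) 1, F z = Real.pi * F z := by
        have h4 : ∫ _c in Metric.ball (0 : ℂ) 1, F z = ∫ _c in Metric.ball (0 : ℂ) 1, (1 : ℝ) * F z := by
          simp only [one_mul]
        rw [h4, integral_mul_const, vol]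
      rw [integral_sub j0 j3, h3]
    rw [h2] at h1
    set P := ∫ c in Metric.ball (0 : ℂ) 1, F (z + r * c)
    set R := ∫ c in Metric.ball (0 : ℂ) 1, (F (z + r * c) - F z) ^ 2
    have h5 : (1 / Real.pi * P - F z) ^ 2 = (P - Real.pi * F z) ^ 2 / Real.pi ^ 2 := by
      field_simp
    rw [h5, div_le_iff₀ (by positivity)]
    have h6 : 1 / Real.pi * R * Real.pi ^ 2 = Real.pi * R := by field_simp
    rw [h6]
    exact h1
  have cH : ContinuousOn (fun p : ℂ × ℂ => φ p.1 * (1 / Real.pi * (F (p.1 + r * p.2) - F p.1) ^ 2))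
      (tsupport φ ×ˢ Metric.closedBall (0 : ℂ) 1) := by
    refine (hφ.comp continuous_fst).continuousOn.mul (continuousOn_const.mul (ContinuousOn.pow ?_ 2))
    refine ContinuousOn.sub ?_ ?_
    · exact (cFΩ.mono hKΩ).comp (by fun_prop) fun p hp => hm r hr hrr p.1 hp.1 p.2 hp.2
    · exact (cFΩ.mono hKΩ).comp continuousOn_fst fun p hp => hSK hp.1
  obtain ⟨s1, s2, s3⟩ := swap (ν := volume)
    (H := fun z c => φ z * (1 / Real.pi * (F (z + r * c) - F z) ^ 2)) hφc.isCompact hcb hsub cH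
  have e0 : ∀ z, ∫ c in Metric.ball (0 : ℂ) 1, φ z * (1 / Real.pi * (F (z + r * c) - F z) ^ 2) =
      φ z * (1 / Real.pi * ∫ c in Metric.ball (0 : ℂ) 1, (F (z + r * c) - F z) ^ 2) := by
    intro z
    rw [integral_const_mul, integral_const_mul]
  have e5 : ∫ z, φ z * ((1 / Real.pi) * (∫ c in Metric.ball (0 : ℂ) 1, F (z + r * c)) - F z) ^ 2 =
      ∫ z in tsupport φ,
        φ z * ((1 / Real.pi) * (∫ c in Metric.ball (0 : ℂ) 1, F (z + r * c)) - F z) ^ 2 := by
    symm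
    refine setIntegral_eq_integral_of_forall_compl_eq_zero fun w hw => ?_
    rw [z0 _ hw, zero_mul]
  rw [e5]
  have step1 : ∫ z in tsupport φ,
      φ z * ((1 / Real.pi) * (∫ c in Metric.ball (0 : ℂ) 1, F (z + r * c)) - F z) ^ 2 ≤
      ∫ z in tsupport φ, ∫ c in Metric.ball (0 : ℂ) 1,
        φ z * (1 / Real.pi * (F (z + r * c) - F z) ^ 2) := by
    refine integral_mono_of_nonneg (ae_of_all _ fun z => mul_nonneg (hφ0 z) (sq_nonneg _)) s2 ?_
    filter_upwards [ae_restrict_mem (isClosed_tsupport φ).measurableSet] with z hz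
    rw [e0 z]
    exact mul_le_mul_of_nonneg_left (pt z hz) (hφ0 z)
  refine step1.trans ?_
  rw [s1]
  have step2 : ∫ c in Metric.ball (0 : ℂ) 1, ∫ z in tsupport φ,
      φ z * (1 / Real.pi * (F (z + r * c) - F z) ^ 2) ≤
      ∫ _c in Metric.ball (0 : ℂ) 1, (1 : ℝ) * (1 / Real.pi * (M * (r ^ 2 * J))) := by
    refine setIntegral_mono_on s3 (i1b.mul_const _) measurableSet_ball fun c hc => ?_
    have hc' := hsub hc
    -- the inner double integral
    have cH2 : ContinuousOn (fun p : ℂ × ℝ => φ p.1 * (1 / Real.pi * (r ^ 2 *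
        G (p.1 + ((p.2 * r : ℝ) : ℂ) * c)))) (tsupport φ ×ˢ Set.Icc (0 : ℝ) 1) := by
      refine (hφ.comp continuous_fst).continuousOn.mul (continuousOn_const.mul
        (continuousOn_const.mul ?_))
      exact cG.comp (by fun_prop) fun p hp => hms p.2 hp.2 p.1 hp.1 c hc'
    obtain ⟨t1, t2, t3⟩ := swap (ν := (volume : Measure ℝ))
      (H := fun z s => φ z * (1 / Real.pi * (r ^ 2 * G (z + ((s * r : ℝ) : ℂ) * c))))
      hφc.isCompact isCompact_Icc Set.Ioc_subset_Icc_self cH2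
    have f0 : ∀ z, ∫ s in Set.Ioc (0 : ℝ) 1,
        φ z * (1 / Real.pi * (r ^ 2 * G (z + ((s * r : ℝ) : ℂ) * c))) =
        φ z * (1 / Real.pi * (r ^ 2 * ∫ s in Set.Ioc (0 : ℝ) 1, G (z + ((s * r : ℝ) : ℂ) * c))) := by
      intro z
      rw [integral_const_mul, integral_const_mul, integral_const_mul]
    have g1 : ∫ z in tsupport φ, φ z * (1 / Real.pi * (F (z + r * c) - F z) ^ 2) ≤
        ∫ z in tsupport φ, ∫ s in Set.Ioc (0 : ℝ) 1,
          φ z * (1 / Real.pi * (r ^ 2 * G (z + ((s * r : ℝ) : ℂ) * c))) := by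
      refine integral_mono_of_nonneg (ae_of_all _ fun z => mul_nonneg (hφ0 z)
        (mul_nonneg (by positivity) (sq_nonneg _))) t2 ?_
      filter_upwards [ae_restrict_mem (isClosed_tsupport φ).measurableSet] with z hz
      rw [f0 z]
      refine mul_le_mul_of_nonneg_left (mul_le_mul_of_nonneg_left ?_ (by positivity)) (hφ0 z)
      exact incr hΩ hF hKΩ hc' fun s hs => hms s hs z hz c hc'
    refine g1.trans ?_
    rw [t1]
    have g2 : ∫ s in Set.Ioc (0 : ℝ) 1, ∫ z in tsupport φ,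
        φ z * (1 / Real.pi * (r ^ 2 * G (z + ((s * r : ℝ) : ℂ) * c))) ≤
        ∫ _s in Set.Ioc (0 : ℝ) 1, (1 / Real.pi * (M * (r ^ 2 * J))) := by
      refine setIntegral_mono_on t3 ((continuousOn_const.integrableOn_compact
        isCompact_Icc).mono_set Set.Ioc_subset_Icc_self) measurableSet_Ioc fun s hs => ?_
      have hs' := Set.Ioc_subset_Icc_self hs
      have e1 : ∫ z in tsupport φ, φ z * (1 / Real.pi * (r ^ 2 * G (z + ((s * r : ℝ) : ℂ) * c))) =
          (1 / Real.pi * r ^ 2) * ∫ z in tsupport φ, φ z * G (z + ((s * r : ℝ) : ℂ) * c) := by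
        rw [← integral_const_mul]
        congr 1
        funext z
        ring
      rw [e1]
      have h2 := translate (G := G) hφ hM hK hm cG hG0 (mul_nonneg hs'.1 hr)
        ((mul_le_of_le_one_left hr hs'.2).trans hrr) hc'
      have h3 := mul_le_mul_of_nonneg_left h2 (show 0 ≤ 1 / Real.pi * r ^ 2 by positivity)
      refine h3.trans (le_of_eq ?_)
      ring
    refine g2.trans (le_of_eq ?_)
    simp
  refine step2.trans (le_of_eq ?_)
  rw [integral_mul_const, vol]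
  field_simp

end

end Pool.Agent.P8H57.VC
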