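import Pool.Agent.P8H31.VC.Stm3
import Pool.Agent.P8H57.VC.Core

/-!
Project VC (helper31), packages K1 and K6
-/

set_option autoImplicit false
open MeasureTheory Filter Topology Complex
open scoped ContDiff ENNReal

namespace Pool.Agent.P8H57.VC

open Pool.Agent.P8H31.VC

theorem k1 : S_K1 := fun hΩ hφ hφc hφΩ hφ0 => k1c hΩ hφ hφc hφΩ hφ0

theorem k6 : S_K6 := fun hΩ hφ hφc hφΩ hφ0 => k6c hΩ hφ hφc hφΩ hφ0

end Pool.Agent.P8H57.VC
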